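import Pool.Agent.MWGR.StmtsE

/-!
# Row FES (MP_23468a_al, block MWGR, part E): `FE n 1` gives `Es n 1`
-/

namespace Pool.Agent.MWGR.H86

open Pool.Agent.MWGR

theorem fes : FesStmt := by
  intro n η h
  have h1 := h [] [3] [] [] 0 1 2 (by decide) (by decide) (by decide)
    (fun z hz => absurd hz List.not_mem_nil)
  exact h1

end Pool.Agent.MWGR.H86
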